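import Pool.Agent.K4H75.OS.Spec

set_option autoImplicit false

namespace Pool.Agent.K4H65.OSEul

open Finset Pool.Agent.K4H75.OS

section
variable {n : ℕ} (G : SimpleGraph (Fin n)) (S : Finset (Fin n)) (A : Finset (Finset (Fin n)))

noncomputable def ES : Finset (Finset (Fin n)) := (edges G).filter fun e => e ⊆ S

/-- incidence of vertices and edges -/
def M : Matrix {x // x ∈ S} {e // e ∈ ES G S} (ZMod 2) := fun x e => if x.1 ∈ e.1 then 1 else 0

/-- incidence of edges and triangles -/
def N : Matrix {e // e ∈ ES G S} {f // f ∈ A} (ZMod 2) := fun e f => if e.1 ⊆ f.1 then 1 else 0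

end

theorem mem_ES {n : ℕ} {G : SimpleGraph (Fin n)} {S : Finset (Fin n)} {e : Finset (Fin n)} :
    e ∈ ES G S ↔ e.card = 2 ∧ (∀ a ∈ e, ∀ b ∈ e, a ≠ b → G.Adj a b) ∧ e ⊆ S := by
  classical
  simp [ES, edges, and_assoc]

/-- the edges between `x` and `e` in a triangle -/
theorem MN_zero {n : ℕ} (G : SimpleGraph (Fin n)) (S : Finset (Fin n)) (A : Finset (Finset (Fin n)))
    (hA : ∀ f ∈ A, f.card = 3 ∧ f ⊆ S ∧ ∀ a ∈ f, ∀ b ∈ f, a ≠ b → G.Adj a b) :
    M G S * N G S A = 0 := by
  classical
  ext x f
  obtain ⟨h3, hS, hadj⟩ := hA f.1 f.2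
  simp only [Matrix.mul_apply, Matrix.zero_apply, M, N]
  have h1 : (∑ j : {e // e ∈ ES G S}, (if x.1 ∈ j.1 then (1 : ZMod 2) else 0) *
      (if j.1 ⊆ f.1 then 1 else 0)) =
      (((ES G S).filter fun e => x.1 ∈ e ∧ e ⊆ f.1).card : ZMod 2) := by
    rw [Finset.card_filter]
    push_cast
    rw [← Finset.sum_coe_sort (ES G S)
      (fun e => if x.1 ∈ e ∧ e ⊆ f.1 then (1 : ZMod 2) else 0)]
    refine Finset.sum_congr rfl fun j _ => ?_
    by_cases ha : x.1 ∈ j.1 <;> by_cases hb : j.1 ⊆ f.1 <;> simp [ha, hb]
  rw [h1]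
  by_cases hx : x.1 ∈ f.1
  · have h2 : ((ES G S).filter fun e => x.1 ∈ e ∧ e ⊆ f.1) =
        (f.1.erase x.1).image fun y => {x.1, y} := by
      ext e
      simp only [mem_filter, mem_ES, mem_image, mem_erase]
      constructor
      · rintro ⟨⟨hc, -, -⟩, hxe, hef⟩
        obtain ⟨a, b, hab, rfl⟩ := Finset.card_eq_two.1 hc
        simp only [mem_insert, mem_singleton] at hxe
        rcases hxe with h | h
        · exact ⟨b, ⟨by rw [h]; exact hab.symm, hef (by simp)⟩, by rw [h]⟩
        · exact ⟨a, ⟨by rw [h]; exact hab, hef (by simp)⟩, by rw [h, Finset.pair_comm]⟩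
      · rintro ⟨y, ⟨hyx, hyf⟩, rfl⟩
        have hsub : ({x.1, y} : Finset (Fin n)) ⊆ f.1 := by
          intro z hz
          simp only [mem_insert, mem_singleton] at hz
          rcases hz with rfl | rfl
          · exact hx
          · exact hyf
        refine ⟨⟨Finset.card_pair hyx.symm, ?_, hsub.trans hS⟩, by simp, hsub⟩
        exact fun a ha b hb hab => hadj a (hsub ha) b (hsub hb) hab
    rw [h2, Finset.card_image_of_injOn, Finset.card_erase_of_mem hx, h3]
    · decide
    · intro y hy z hz hyz
      simp only [coe_erase, Set.mem_diff, mem_coe, Set.mem_singleton_iff] at hy hz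
      have h4 : y ∈ ({x.1, z} : Finset (Fin n)) := by
        have : y ∈ ({x.1, y} : Finset (Fin n)) := by simp
        exact (show ({x.1, y} : Finset (Fin n)) = {x.1, z} from hyz) ▸ this
      simp only [mem_insert, mem_singleton] at h4
      rcases h4 with h | h
      · exact absurd h hy.2
      · exact h
  · have h2 : ((ES G S).filter fun e => x.1 ∈ e ∧ e ⊆ f.1) = ∅ := by
      rw [Finset.filter_eq_empty_iff]
      rintro e - ⟨h, h'⟩
      exact hx (h' h)
    rw [h2]
    simp

theorem N_rank {n : ℕ} (G : SimpleGraph (Fin n)) (S : Finset (Fin n)) (A : Finset (Finset (Fin n)))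
    (hA : ∀ f ∈ A, f.card = 3 ∧ f ⊆ S ∧ ∀ a ∈ f, ∀ b ∈ f, a ≠ b → G.Adj a b)
    (hB : ∀ B ⊆ A, B.Nonempty → ∃ e ∈ edges G, (B.filter fun f => e ⊆ f).card = 1) :
    (N G S A).rank = A.card := by
  classical
  have hinj : Function.Injective (N G S A).mulVecLin := by
    rw [← LinearMap.ker_eq_bot, LinearMap.ker_eq_bot']
    intro β hβ
    by_contra hne
    set B : Finset (Finset (Fin n)) := (univ.filter fun f : {f // f ∈ A} => β f ≠ 0).image
      Subtype.val with hBdef
    have hBA : B ⊆ A := by
      intro f hf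
      rw [hBdef, mem_image] at hf
      obtain ⟨g, -, rfl⟩ := hf
      exact g.2
    have hBne : B.Nonempty := by
      obtain ⟨f, hf⟩ := Function.ne_iff.1 hne
      exact ⟨f.1, by rw [hBdef]; exact mem_image_of_mem _ (by simpa using hf)⟩
    obtain ⟨e, he, hc⟩ := hB B hBA hBne
    obtain ⟨g, hg⟩ := Finset.card_eq_one.1 hc
    have hgm : g ∈ B.filter fun f => e ⊆ f := by rw [hg]; simp
    rw [mem_filter] at hgm
    have heS : e ∈ ES G S := by
      rw [ES, mem_filter]
      exact ⟨he, hgm.2.trans (hA g (hBA hgm.1)).2.1⟩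
    have hgB := hgm.1
    rw [hBdef, mem_image] at hgB
    obtain ⟨g', hg', hg'e⟩ := hgB
    have hval := congrFun hβ ⟨e, heS⟩
    rw [Matrix.mulVecLin_apply, Matrix.mulVec, dotProduct, Finset.sum_eq_single g'] at hval
    · simp only [mem_filter, mem_univ, true_and] at hg'
      apply hg'
      simpa [N, hg'e, hgm.2] using hval
    · intro f _ hfg
      by_cases hf0 : β f = 0
      · simp [hf0]
      · have hnot : ¬ e ⊆ f.1 := by
          intro hef
          have : f.1 ∈ B.filter fun f => e ⊆ f := by
            rw [mem_filter]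
            exact ⟨by rw [hBdef]; exact mem_image_of_mem _ (by simpa using hf0), hef⟩
          rw [hg, mem_singleton] at this
          exact hfg (Subtype.ext (this.trans hg'e.symm))
        simp [N, hnot]
    · intro h
      exact absurd (mem_univ _) h
  rw [Matrix.rank, LinearMap.finrank_range_of_inj hinj]
  simp

theorem ker_le {n : ℕ} (G : SimpleGraph (Fin n)) (S : Finset (Fin n)) :
    Module.finrank (ZMod 2) (LinearMap.ker (M G S).transpose.mulVecLin) ≤ comps G S := by
  classical
  set H := G.induce (S : Set (Fin n)) with hH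
  haveI : Fintype H.ConnectedComponent := Fintype.ofFinite _
  -- every element of the kernel is constant on the components
  have hconst : ∀ φ ∈ LinearMap.ker (M G S).transpose.mulVecLin, ∀ a b : {x // x ∈ S},
      H.Adj ⟨a.1, a.2⟩ ⟨b.1, b.2⟩ → φ a = φ b := by
    intro φ hφ a b hab
    have hab' : G.Adj a.1 b.1 := by simpa [hH] using hab
    have hne : a ≠ b := by
      rintro rfl
      exact G.loopless.irrefl _ hab'
    have hne' : a.1 ≠ b.1 := fun h => hne (Subtype.ext h)
    have he : ({a.1, b.1} : Finset (Fin n)) ∈ ES G S := by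
      rw [mem_ES]
      refine ⟨Finset.card_pair hne', ?_, ?_⟩
      · intro x hx y hy hxy
        simp only [mem_insert, mem_singleton] at hx hy
        rcases hx with rfl | rfl <;> rcases hy with rfl | rfl
        · exact absurd rfl hxy
        · exact hab'
        · exact hab'.symm
        · exact absurd rfl hxy
      · intro x hx
        simp only [mem_insert, mem_singleton] at hx
        rcases hx with rfl | rfl
        · exact a.2
        · exact b.2
    have h0 := congrFun (LinearMap.mem_ker.1 hφ) ⟨_, he⟩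
    rw [Matrix.mulVecLin_apply, Matrix.mulVec, dotProduct,
      Finset.sum_eq_add a b hne] at h0
    · have h1 : φ a + φ b = 0 := by
        simpa [M, Matrix.transpose_apply] using h0
      have h2 := eq_neg_of_add_eq_zero_left h1
      rw [h2]
      exact ZMod.neg_eq_self_mod_two _
    · intro c _ hc
      have : c.1 ∉ ({a.1, b.1} : Finset (Fin n)) := by
        simp only [mem_insert, mem_singleton, not_or]
        exact ⟨fun h => hc.1 (Subtype.ext h), fun h => hc.2 (Subtype.ext h)⟩
      simp [M, Matrix.transpose_apply] at this ⊢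
      tauto
    · intro h
      exact absurd (mem_univ _) h
    · intro h
      exact absurd (mem_univ _) h
  -- the pullback of functions on the components
  let L : (H.ConnectedComponent → ZMod 2) →ₗ[ZMod 2] ({x // x ∈ S} → ZMod 2) :=
    { toFun := fun g x => g (H.connectedComponentMk ⟨x.1, x.2⟩)
      map_add' := fun _ _ => rfl
      map_smul' := fun _ _ => rfl }
  have hle : LinearMap.ker (M G S).transpose.mulVecLin ≤ LinearMap.range L := by
    intro φ hφ
    have hreach : ∀ a b : {x // x ∈ (S : Set (Fin n))}, H.Reachable a b →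
        φ ⟨a.1, a.2⟩ = φ ⟨b.1, b.2⟩ := by
      rintro a b ⟨p⟩
      induction p with
      | nil => rfl
      | cons h p ih => exact (hconst φ hφ ⟨_, _⟩ ⟨_, _⟩ h).trans ih
    refine ⟨fun c => φ ⟨c.out.1, c.out.2⟩, ?_⟩
    funext x
    refine hreach _ ⟨x.1, x.2⟩ ?_
    exact SimpleGraph.ConnectedComponent.exact (Quot.out_eq _)
  calc Module.finrank (ZMod 2) (LinearMap.ker (M G S).transpose.mulVecLin)
      ≤ Module.finrank (ZMod 2) (LinearMap.range L) := Submodule.finrank_mono hle
    _ ≤ Module.finrank (ZMod 2) (H.ConnectedComponent → ZMod 2) := LinearMap.finrank_range_le L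
    _ = comps G S := by
        rw [Module.finrank_fintype_fun_eq_card, comps, Nat.card_eq_fintype_card]

theorem eul0 : StEul := by
  classical
  intro n G S A hA hB
  have h1 := Matrix.rank_add_rank_le_card_of_mul_eq_zero (MN_zero G S A hA)
  rw [N_rank G S A hA hB] at h1
  have h2 : (M G S).rank + Module.finrank (ZMod 2)
      (LinearMap.ker (M G S).transpose.mulVecLin) = S.card := by
    rw [← Matrix.rank_transpose (M G S), Matrix.rank,
      LinearMap.finrank_range_add_finrank_ker, Module.finrank_fintype_fun_eq_card]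
    simp
  have h3 := ker_le G S
  have h4 : Fintype.card {e // e ∈ ES G S} = ((edges G).filter fun e => e ⊆ S).card := by
    rw [Fintype.card_coe]
    rfl
  omega

end Pool.Agent.K4H65.OSEul

namespace Pool.Agent.K4H75.OS

/-- piece EUL -/
theorem eul : StEul := Pool.Agent.K4H65.OSEul.eul0

end Pool.Agent.K4H75.OS
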