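import Pool.Agent.K4H45.PC.Spec

namespace K4H45.PC
open Set Polynomial

namespace H65

/-- the shift `z ↦ z + b` followed by `ℂ → ℝ × ℝ` -/
noncomputable def hh (b : ℂ) : ℂ ≃ₜ ℝ × ℝ :=
  (Homeomorph.addRight b).trans Complex.equivRealProdCLM.toHomeomorph

theorem hh_apply (b z : ℂ) : hh b z = (z.re + b.re, z.im + b.im) := by
  simp [hh]

theorem norm_le {F : Set (ℝ × ℝ)} {c : ℝ → ℂ}
    (hF : F = (fun s => ((c s).re, (c s).im)) '' Icc 0 1) (hv : eVariationOn c (Icc 0 1) = 1)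
    {z : ℂ} (hz : hh (c 0) z ∈ F) : ‖z‖ ≤ 1 := by
  rw [hF] at hz
  obtain ⟨s, hs, he⟩ := hz
  rw [hh_apply] at he
  simp only [Prod.mk.injEq] at he
  have h1 : z = c s - c 0 := by
    apply Complex.ext
    · rw [Complex.sub_re]; linarith [he.1]
    · rw [Complex.sub_im]; linarith [he.2]
  have h2 := eVariationOn.edist_le c hs (left_mem_Icc.2 (zero_le_one' ℝ))
  rw [hv, edist_dist, ← ENNReal.ofReal_one, ENNReal.ofReal_le_ofReal_iff zero_le_one,
    dist_eq_norm] at h2
  rw [h1]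
  exact h2

theorem eval_lin (P : ℝ[X]) (a s : ℝ) :
    (P.comp (C 2 * X - C 1) + C a).eval s = P.eval (2 * s - 1) + a := by
  simp [eval_comp]

theorem deg_lin (P : ℝ[X]) (a : ℝ) {n : ℕ} (h : P.natDegree ≤ n) :
    (P.comp (C 2 * X - C 1) + C a).natDegree ≤ n := by
  refine (natDegree_add_le _ _).trans ?_
  rw [natDegree_C]
  refine max_le ?_ (Nat.zero_le _)
  refine (natDegree_comp_le).trans ?_
  have h1 : (C 2 * X - C 1 : ℝ[X]).natDegree ≤ 1 := by
    compute_degree
  calc P.natDegree * (C 2 * X - C 1 : ℝ[X]).natDegree ≤ P.natDegree * 1 := Nat.mul_le_mul_left _ h1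
    _ ≤ n := by rw [mul_one]; exact h

end H65

open H65 in
theorem fin : S_CPX → S_BALL → S_FIN := by
  intro hcpx hball n hn F hF
  obtain ⟨⟨K0, hc0, hv0, hi0, hfr⟩, c, -, -, -, hFc, hvar⟩ := hF
  set b := c 0 with hb
  set K : Set ℂ := hh b ⁻¹' K0 with hK
  have hfrK : frontier K = hh b ⁻¹' F := by
    rw [hK, ← Homeomorph.preimage_frontier, ← hfr]
  have hfn : frontier K ⊆ Metric.closedBall 0 1 := by
    intro z hz
    rw [hfrK] at hz
    rw [mem_closedBall_zero_iff]
    exact norm_le hFc hvar hz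
  have hcK : IsCompact K := (Homeomorph.isCompact_preimage (hh b)).2 hc0
  have hvK : Convex ℝ K := by
    intro x hx y hy α β hα hβ hαβ
    have hx' : hh b x ∈ K0 := hx
    have hy' : hh b y ∈ K0 := hy
    show hh b (α • x + β • y) ∈ K0
    have := hv0 hx' hy' hα hβ hαβ
    convert this using 1
    rw [hh_apply, hh_apply, hh_apply]
    apply Prod.ext
    · simp only [Complex.add_re, Complex.real_smul, Complex.re_ofReal_mul, Prod.fst_add,
        Prod.smul_fst, smul_eq_mul]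
      linear_combination (-b.re) * hαβ
    · simp only [Complex.add_im, Complex.real_smul, Complex.im_ofReal_mul, Prod.snd_add,
        Prod.smul_snd, smul_eq_mul]
      linear_combination (-b.im) * hαβ
  have hneK : K.Nonempty := by
    obtain ⟨x, hx⟩ := hi0
    refine ⟨(hh b).symm x, ?_⟩
    show hh b ((hh b).symm x) ∈ K0
    rw [Homeomorph.apply_symm_apply]
    exact interior_subset hx
  have hbase : Base K := ⟨hcK, hvK, hneK, hball K 0 hcK hvK hfn⟩
  obtain ⟨P, Q, hP, hQ, h1, h2⟩ := hcpx n hn K hbase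
  refine ⟨P.comp (C 2 * X - C 1) + C b.re, Q.comp (C 2 * X - C 1) + C b.im, deg_lin P _ hP,
    deg_lin Q _ hQ, ?_⟩
  have hdist : ∀ (x : ℝ × ℝ) (z : ℂ) (s : ℝ), hh b z = x →
      ‖z - ⟨P.eval (2 * s - 1), Q.eval (2 * s - 1)⟩‖ ≤ 1000000 / (n : ℝ) ^ 2 →
      dist x ((P.comp (C 2 * X - C 1) + C b.re).eval s,
        (Q.comp (C 2 * X - C 1) + C b.im).eval s) ≤ 1000000 / (n : ℝ) ^ 2 := by
    rintro x z s rfl h
    rw [hh_apply, eval_lin, eval_lin, Prod.dist_eq]
    refine max_le ?_ ?_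
    · refine le_trans ?_ h
      refine le_trans (le_of_eq ?_) (Complex.abs_re_le_norm _)
      rw [Real.dist_eq, Complex.sub_re]
      congr 1
      ring
    · refine le_trans ?_ h
      refine le_trans (le_of_eq ?_) (Complex.abs_im_le_norm _)
      rw [Real.dist_eq, Complex.sub_im]
      congr 1
      ring
  refine Metric.hausdorffDist_le_of_mem_dist (by positivity) ?_ ?_
  · intro x hx
    have hz : (hh b).symm x ∈ frontier K := by
      rw [hfrK]
      show hh b ((hh b).symm x) ∈ F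
      rw [Homeomorph.apply_symm_apply]
      exact hx
    obtain ⟨u, hu, h3⟩ := h2 _ hz
    refine ⟨_, ⟨(u + 1) / 2, ⟨by linarith [hu.1], by linarith [hu.2]⟩, rfl⟩, ?_⟩
    refine hdist x _ _ ((hh b).apply_symm_apply x) ?_
    rw [show 2 * ((u + 1) / 2) - 1 = u by ring]
    exact h3
  · rintro _ ⟨s, hs, rfl⟩
    obtain ⟨z, hz, h3⟩ := h1 (2 * s - 1) ⟨by linarith [hs.1], by linarith [hs.2]⟩
    rw [hfrK] at hz
    refine ⟨hh b z, hz, ?_⟩
    rw [dist_comm]
    exact hdist _ z s rfl h3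

end K4H45.PC
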